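import Mathlib

set_option autoImplicit false

namespace Pool.Agent.H.MP_5b3c48_co

open SimpleGraph Finset

/-- The edge blow-up `H^3`: one new vertex per edge, joined to both ends of the edge. -/
def blow {W : Type} (H : SimpleGraph W) : SimpleGraph (W ⊕ H.edgeSet) :=
  SimpleGraph.fromRel fun u w =>
    match u, w with
    | Sum.inl a, Sum.inl b => H.Adj a b
    | Sum.inl a, Sum.inr e => a ∈ e.1
    | Sum.inr _, _ => False

/-- The number of triangles. -/
noncomputable def tri {V : Type} (G : SimpleGraph V) : ℕ := (G.cliqueSet 3).ncard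

/-- `G` is `F`-free with the largest number of triangles among `F`-free graphs on `n` vertices. -/
def Extremal {W : Type} (F : SimpleGraph W) {n : ℕ} (G : SimpleGraph (Fin n)) : Prop :=
  F.Free G ∧ ∀ G' : SimpleGraph (Fin n), F.Free G' → tri G' ≤ tri G

/-- `G` is the unique extremal graph up to isomorphism. -/
def UniqueExtremal {W : Type} (F : SimpleGraph W) {n : ℕ} (G : SimpleGraph (Fin n)) : Prop :=
  Extremal F G ∧ ∀ G' : SimpleGraph (Fin n), Extremal F G' → Nonempty (G' ≃g G)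

/-- `H(n,2,t)`: the first `t-1` vertices are joined to everything, the others form the balanced
complete bipartite graph given by parity. -/
def Hn (n t : ℕ) : SimpleGraph (Fin n) :=
  SimpleGraph.fromRel fun u w => u.1 + 1 < t ∨ u.1 % 2 ≠ w.1 % 2

section general

variable {V : Type} [Fintype V] [DecidableEq V]

def GG (v : V) (s : V → Bool) (x y : V) : SimpleGraph V :=
  SimpleGraph.fromRel (fun u w => u = v ∨ s u ≠ s w) ⊔ edge x y

omit [Fintype V] [DecidableEq V] in
theorem GG_adj (v : V) (s : V → Bool) (x y u w : V) :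
    (GG v s x y).Adj u w ↔
      u ≠ w ∧ (u = v ∨ w = v ∨ s u ≠ s w ∨ (u = x ∧ w = y) ∨ (u = y ∧ w = x)) := by
  simp only [GG, sup_adj, fromRel_adj, edge_adj]
  constructor
  · rintro (⟨h, (h1 | h1) | (h1 | h1)⟩ | ⟨h1 | h1, h⟩)
    · exact ⟨h, Or.inl h1⟩
    · exact ⟨h, Or.inr (Or.inr (Or.inl h1))⟩
    · exact ⟨h, Or.inr (Or.inl h1)⟩
    · exact ⟨h, Or.inr (Or.inr (Or.inl (Ne.symm h1)))⟩
    · exact ⟨h, Or.inr (Or.inr (Or.inr (Or.inl h1)))⟩
    · exact ⟨h, Or.inr (Or.inr (Or.inr (Or.inr h1)))⟩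
  · rintro ⟨h, h1 | h1 | h1 | h1 | h1⟩
    · exact Or.inl ⟨h, Or.inl (Or.inl h1)⟩
    · exact Or.inl ⟨h, Or.inr (Or.inl h1)⟩
    · exact Or.inl ⟨h, Or.inl (Or.inr h1)⟩
    · exact Or.inr ⟨Or.inl h1, h⟩
    · exact Or.inr ⟨Or.inr h1, h⟩

omit [Fintype V] [DecidableEq V] in
theorem tri_cases (v : V) (s : V → Bool) (x y p q r : V)
    (h1 : (GG v s x y).Adj p q) (h2 : (GG v s x y).Adj p r) (h3 : (GG v s x y).Adj q r) :
    (p = v ∨ q = v ∨ r = v) ∨ ((p = x ∨ q = x ∨ r = x) ∧ (p = y ∨ q = y ∨ r = y)) := by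
  rw [GG_adj] at h1 h2 h3
  by_cases hp : p = v
  · exact Or.inl (Or.inl hp)
  by_cases hq : q = v
  · exact Or.inl (Or.inr (Or.inl hq))
  by_cases hr : r = v
  · exact Or.inl (Or.inr (Or.inr hr))
  right
  by_cases e1 : s p = s q
  · rcases h1.2 with h | h | h | h | h
    · exact absurd h hp
    · exact absurd h hq
    · exact absurd e1 h
    · exact ⟨Or.inl h.1, Or.inr (Or.inl h.2)⟩
    · exact ⟨Or.inr (Or.inl h.2), Or.inl h.1⟩
  by_cases e2 : s p = s r
  · rcases h2.2 with h | h | h | h | h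
    · exact absurd h hp
    · exact absurd h hr
    · exact absurd e2 h
    · exact ⟨Or.inl h.1, Or.inr (Or.inr h.2)⟩
    · exact ⟨Or.inr (Or.inr h.2), Or.inl h.1⟩
  have e3 : s q = s r := by
    revert e1 e2
    cases s p <;> cases s q <;> cases s r <;> simp
  rcases h3.2 with h | h | h | h | h
  · exact absurd h hq
  · exact absurd h hr
  · exact absurd e3 h
  · exact ⟨Or.inr (Or.inl h.1), Or.inr (Or.inr h.2)⟩
  · exact ⟨Or.inr (Or.inr h.2), Or.inr (Or.inl h.1)⟩

def PP (v : V) (s : V → Bool) (x : V) : Finset V := univ.filter fun u => u ≠ v ∧ s u = s x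
def QQ (v : V) (s : V → Bool) (x : V) : Finset V := univ.filter fun u => u ≠ v ∧ s u ≠ s x

theorem mem_PP (v : V) (s : V → Bool) (x u : V) : u ∈ PP v s x ↔ u ≠ v ∧ s u = s x := by
  simp [PP]

theorem mem_QQ (v : V) (s : V → Bool) (x u : V) : u ∈ QQ v s x ↔ u ≠ v ∧ s u ≠ s x := by
  simp [QQ]

theorem bool_aux (a b c : Bool) (h : a ≠ b) : (a = c ∧ b ≠ c) ∨ (a ≠ c ∧ b = c) := by
  revert a b c; decide

theorem tri_set (v : V) (s : V → Bool) (x y : V) (hxy : x ≠ y) (hx : x ≠ v) (hy : y ≠ v)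
    (hs : s y = s x) :
    (GG v s x y).cliqueSet 3 =
      ((((PP v s x ×ˢ QQ v s x).image fun p => ({v, p.1, p.2} : Finset V)) ∪
        ((QQ v s x).image fun b => ({x, y, b} : Finset V)) ∪ {({v, x, y} : Finset V)} :
          Finset (Finset V)) : Set (Finset V)) := by
  have key : ∀ q r : V, (GG v s x y).Adj v q → (GG v s x y).Adj v r → (GG v s x y).Adj q r →
      (∃ a b, (a ∈ PP v s x ∧ b ∈ QQ v s x) ∧ ({v, a, b} : Finset V) = {v, q, r}) ∨
        ({v, q, r} : Finset V) = {v, x, y} := by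
    intro q r h1 h2 h3
    have hq : q ≠ v := h1.ne.symm
    have hr : r ≠ v := h2.ne.symm
    rw [GG_adj] at h3
    rcases h3.2 with h | h | h | h | h
    · exact absurd h hq
    · exact absurd h hr
    · rcases bool_aux _ _ (s x) h with ⟨a1, a2⟩ | ⟨a1, a2⟩
      · exact Or.inl ⟨q, r, ⟨(mem_PP ..).2 ⟨hq, a1⟩, (mem_QQ ..).2 ⟨hr, a2⟩⟩, rfl⟩
      · exact Or.inl ⟨r, q, ⟨(mem_PP ..).2 ⟨hr, a2⟩, (mem_QQ ..).2 ⟨hq, a1⟩⟩,
          by rw [Finset.pair_comm]⟩
    · right; rw [h.1, h.2]
    · right; rw [h.1, h.2, Finset.pair_comm]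
  have key2 : ∀ r : V, r ≠ v → (GG v s x y).Adj x r → (GG v s x y).Adj y r →
      r ∈ QQ v s x := by
    intro r hr h1 h2
    rw [mem_QQ]
    refine ⟨hr, fun h => ?_⟩
    have n1 := h1.ne
    have n2 := h2.ne
    rw [GG_adj] at h1
    rcases h1.2 with h' | h' | h' | h' | h'
    · exact hx h'
    · exact hr h'
    · exact h' h.symm
    · exact n2 h'.2.symm
    · exact hxy h'.1
  ext T
  simp only [mem_cliqueSet_iff, is3Clique_iff, coe_union, coe_image, Set.mem_union,
    Set.mem_image, mem_coe, mem_product, coe_singleton, Set.mem_singleton_iff, Prod.exists]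
  constructor
  · rintro ⟨p, q, r, h1, h2, h3, rfl⟩
    rcases tri_cases v s x y p q r h1 h2 h3 with hv | hv
    · have : (∃ a b, (a ∈ PP v s x ∧ b ∈ QQ v s x) ∧ ({v, a, b} : Finset V) = {p, q, r}) ∨
        ({p, q, r} : Finset V) = {v, x, y} := by
        rcases hv with rfl | rfl | rfl
        · exact key q r h1 h2 h3
        · have := key p r h1.symm h3 h2
          rwa [Finset.insert_comm q p] at this
        · have := key p q h2.symm h3.symm h1
          have e : ({r, p, q} : Finset V) = {p, q, r} := by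
            ext z; simp only [mem_insert, mem_singleton]; tauto
          rwa [e] at this
      rcases this with h | h
      · exact Or.inl (Or.inl h)
      · exact Or.inr h
    · have fin : ∀ r', (GG v s x y).Adj x r' → (GG v s x y).Adj y r' →
          ({x, y, r'} : Finset V) = {p, q, r} →
          ((∃ a b, (a ∈ PP v s x ∧ b ∈ QQ v s x) ∧ ({v, a, b} : Finset V) = {p, q, r}) ∨
            ∃ b, b ∈ QQ v s x ∧ ({x, y, b} : Finset V) = {p, q, r}) ∨
          ({p, q, r} : Finset V) = {v, x, y} := by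
        intro r' a1 a2 e
        by_cases hr : r' = v
        · right
          rw [← e, hr]
          ext z; simp only [mem_insert, mem_singleton]; tauto
        · exact Or.inl (Or.inr ⟨r', key2 r' hr a1 a2, e⟩)
      obtain ⟨a | a | a, b | b | b⟩ := hv
      · exact absurd (a.symm.trans b) hxy
      · subst a b; exact fin r h2 h3 rfl
      · subst a b
        exact fin q h1 h3.symm (by ext z; simp only [mem_insert, mem_singleton]; tauto)
      · subst a b
        exact fin r h3 h2 (by ext z; simp only [mem_insert, mem_singleton]; tauto)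
      · exact absurd (a.symm.trans b) hxy
      · subst a b
        exact fin p h1.symm h2.symm (by ext z; simp only [mem_insert, mem_singleton]; tauto)
      · subst a b
        exact fin q h3.symm h1 (by ext z; simp only [mem_insert, mem_singleton]; tauto)
      · subst a b
        exact fin p h2.symm h1.symm (by ext z; simp only [mem_insert, mem_singleton]; tauto)
      · exact absurd (a.symm.trans b) hxy
  · rintro ((⟨a, b, ⟨ha, hb⟩, rfl⟩ | ⟨b, hb, rfl⟩) | rfl)
    · rw [mem_PP] at ha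
      rw [mem_QQ] at hb
      have hab : s a ≠ s b := fun h => hb.2 (h.symm.trans ha.2)
      refine ⟨v, a, b, ?_, ?_, ?_, rfl⟩ <;> rw [GG_adj]
      · exact ⟨ha.1.symm, Or.inl rfl⟩
      · exact ⟨hb.1.symm, Or.inl rfl⟩
      · exact ⟨fun h => hab (by rw [h]), Or.inr (Or.inr (Or.inl hab))⟩
    · rw [mem_QQ] at hb
      refine ⟨x, y, b, ?_, ?_, ?_, rfl⟩ <;> rw [GG_adj]
      · exact ⟨hxy, Or.inr (Or.inr (Or.inr (Or.inl ⟨rfl, rfl⟩)))⟩
      · exact ⟨fun h => hb.2 (by rw [h]), Or.inr (Or.inr (Or.inl hb.2.symm))⟩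
      · exact ⟨fun h => hb.2 (by rw [← h, hs]), Or.inr (Or.inr (Or.inl (hs ▸ hb.2.symm)))⟩
    · refine ⟨v, x, y, ?_, ?_, ?_, rfl⟩ <;> rw [GG_adj]
      · exact ⟨hx.symm, Or.inl rfl⟩
      · exact ⟨hy.symm, Or.inl rfl⟩
      · exact ⟨hxy, Or.inr (Or.inr (Or.inr (Or.inl ⟨rfl, rfl⟩)))⟩

theorem tri_GG (v : V) (s : V → Bool) (x y : V) (hxy : x ≠ y) (hx : x ≠ v) (hy : y ≠ v)
    (hs : s y = s x) :
    tri (GG v s x y) = (PP v s x).card * (QQ v s x).card + (QQ v s x).card + 1 := by
  unfold tri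
  rw [tri_set v s x y hxy hx hy hs, Set.ncard_coe_finset, card_union_of_disjoint,
    card_union_of_disjoint, card_image_of_injOn, card_image_of_injOn, card_product,
    card_singleton]
  · intro b hb b' hb' h
    rw [mem_coe, mem_QQ] at hb hb'
    have : b ∈ ({x, y, b'} : Finset V) := by
      have h' : ({x, y, b} : Finset V) = {x, y, b'} := h
      rw [← h']; simp
    simp only [mem_insert, mem_singleton] at this
    rcases this with e | e | e
    · exact absurd (by rw [e]) hb.2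
    · exact absurd (by rw [e, hs]) hb.2
    · exact e
  · rintro ⟨a, b⟩ hab ⟨a', b'⟩ hab' h
    rw [mem_coe, mem_product, mem_PP, mem_QQ] at hab hab'
    have h' : ({v, a, b} : Finset V) = {v, a', b'} := h
    have m1 : a ∈ ({v, a', b'} : Finset V) := by rw [← h']; simp
    have m2 : b ∈ ({v, a', b'} : Finset V) := by rw [← h']; simp
    simp only [mem_insert, mem_singleton] at m1 m2
    obtain ⟨⟨p1, p2⟩, p3, p4⟩ := hab
    obtain ⟨⟨q1, q2⟩, q3, q4⟩ := hab'
    simp only at p1 p2 p3 p4 q1 q2 q3 q4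
    have ea : a = a' := by
      rcases m1 with e | e | e
      · exact absurd e p1
      · exact e
      · exact absurd (e ▸ p2) q4
    have eb : b = b' := by
      rcases m2 with e | e | e
      · exact absurd e p3
      · exact absurd (e ▸ q2) p4
      · exact e
    rw [ea, eb]
  · rw [Finset.disjoint_left]
    intro T h1 h2
    simp only [mem_image, mem_product, Prod.exists] at h1 h2
    obtain ⟨a, b, -, rfl⟩ := h1
    obtain ⟨c, hc, h⟩ := h2
    rw [mem_QQ] at hc
    have : v ∈ ({x, y, c} : Finset V) := by rw [h]; simp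
    simp only [mem_insert, mem_singleton] at this
    rcases this with e | e | e
    · exact hx e.symm
    · exact hy e.symm
    · exact hc.1 e.symm
  · rw [Finset.disjoint_singleton_right]
    intro h
    simp only [mem_union, mem_image, mem_product, Prod.exists] at h
    have fin : ∀ b, b ∈ QQ v s x → b ∉ ({v, x, y} : Finset V) := by
      intro b hb h
      rw [mem_QQ] at hb
      simp only [mem_insert, mem_singleton] at h
      rcases h with e | e | e
      · exact hb.1 e
      · exact hb.2 (by rw [e])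
      · exact hb.2 (by rw [e, hs])
    rcases h with ⟨a, b, ⟨-, hb⟩, h⟩ | ⟨b, hb, h⟩
    · exact fin b hb (by rw [← h]; simp)
    · exact fin b hb (by rw [← h]; simp)

omit [Fintype V] [DecidableEq V] in
theorem pull {k : ℕ} (g : Fin k → V) (hg : Function.Injective g) (v : V) :
    ∃ o : Option (Fin k), ∀ i, g i = v ↔ o = some i := by
  by_cases h : ∃ i, g i = v
  · obtain ⟨i, hi⟩ := h
    refine ⟨some i, fun j => ⟨fun e => ?_, fun e => ?_⟩⟩
    · rw [hg (e.trans hi.symm)]
    · rw [← Option.some.inj e]; exact hi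
  · exact ⟨none, fun j => ⟨fun e => absurd ⟨j, e⟩ h, fun e => by cases e⟩⟩

def TC {k : ℕ} (a b c : Option (Fin k)) (p q r : Fin k) : Prop :=
  (a = some p ∨ a = some q ∨ a = some r) ∨
    ((b = some p ∨ b = some q ∨ b = some r) ∧ (c = some p ∨ c = some q ∨ c = some r))

instance {k : ℕ} (a b c : Option (Fin k)) (p q r : Fin k) : Decidable (TC a b c p q r) := by
  unfold TC; infer_instance

theorem fin_path : ∀ a b c : Option (Fin 9), TC a b c 0 1 5 → TC a b c 1 2 6 → TC a b c 2 3 7 →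
    TC a b c 3 4 8 → b = c ∧ b ≠ none := by decide +kernel

theorem fin_cyc : ∀ a b c : Option (Fin 8), TC a b c 0 1 4 → TC a b c 1 2 5 → TC a b c 2 3 6 →
    TC a b c 3 0 7 → b = c ∧ b ≠ none := by decide +kernel

omit [Fintype V] [DecidableEq V] in
theorem no_emb {k : ℕ} (v : V) (s : V → Bool) (x y : V) (hxy : x ≠ y) (g : Fin k → V)
    (hg : Function.Injective g) :
    ∃ a b c : Option (Fin k), ¬ (b = c ∧ b ≠ none) ∧ ∀ p q r, (GG v s x y).Adj (g p) (g q) →
      (GG v s x y).Adj (g p) (g r) → (GG v s x y).Adj (g q) (g r) → TC a b c p q r := by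
  obtain ⟨a, ha⟩ := pull g hg v
  obtain ⟨b, hb⟩ := pull g hg x
  obtain ⟨c, hc⟩ := pull g hg y
  refine ⟨a, b, c, ?_, fun p q r h1 h2 h3 => ?_⟩
  · rintro ⟨rfl, h⟩
    obtain ⟨i, hi⟩ := Option.ne_none_iff_exists'.1 h
    exact hxy (((hb i).2 hi).symm.trans ((hc i).2 hi))
  · have := tri_cases v s x y _ _ _ h1 h2 h3
    simp only [ha, hb, hc] at this
    exact this

end general

theorem blow_ll {W : Type} (H : SimpleGraph W) (a b : W) (h : H.Adj a b) :
    (blow H).Adj (Sum.inl a) (Sum.inl b) := by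
  simp only [blow, fromRel_adj]
  exact ⟨fun e => h.ne (Sum.inl.inj e), Or.inl h⟩

theorem blow_lr {W : Type} (H : SimpleGraph W) (a : W) (e : H.edgeSet) (h : a ∈ e.1) :
    (blow H).Adj (Sum.inl a) (Sum.inr e) := by
  simp only [blow, fromRel_adj]
  exact ⟨by simp, Or.inl h⟩

theorem p01 : (pathGraph 5).Adj 0 1 := by rw [pathGraph_adj]; decide
theorem p12 : (pathGraph 5).Adj 1 2 := by rw [pathGraph_adj]; decide
theorem p23 : (pathGraph 5).Adj 2 3 := by rw [pathGraph_adj]; decide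
theorem p34 : (pathGraph 5).Adj 3 4 := by rw [pathGraph_adj]; decide

def gP : Fin 9 → Fin 5 ⊕ (pathGraph 5).edgeSet :=
  ![Sum.inl 0, Sum.inl 1, Sum.inl 2, Sum.inl 3, Sum.inl 4, Sum.inr ⟨s(0, 1), p01⟩,
    Sum.inr ⟨s(1, 2), p12⟩, Sum.inr ⟨s(2, 3), p23⟩, Sum.inr ⟨s(3, 4), p34⟩]

theorem gP_inj : Function.Injective gP := by
  have : Function.Injective (fun i => Sum.map id Subtype.val (gP i)) := by decide
  exact fun i j h => this (by simp only [h])

theorem c01 : (cycleGraph 4).Adj 0 1 := by decide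
theorem c12 : (cycleGraph 4).Adj 1 2 := by decide
theorem c23 : (cycleGraph 4).Adj 2 3 := by decide
theorem c30 : (cycleGraph 4).Adj 3 0 := by decide

def gC : Fin 8 → Fin 4 ⊕ (cycleGraph 4).edgeSet :=
  ![Sum.inl 0, Sum.inl 1, Sum.inl 2, Sum.inl 3, Sum.inr ⟨s(0, 1), c01⟩,
    Sum.inr ⟨s(1, 2), c12⟩, Sum.inr ⟨s(2, 3), c23⟩, Sum.inr ⟨s(3, 0), c30⟩]

theorem gC_inj : Function.Injective gC := by
  have : Function.Injective (fun i => Sum.map id Subtype.val (gC i)) := by decide
  exact fun i j h => this (by simp only [h])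

theorem free_path {V : Type} (v : V) (s : V → Bool) (x y : V) (hxy : x ≠ y) :
    (blow (pathGraph 5)).Free (GG v s x y) := by
  rintro ⟨f⟩
  obtain ⟨a, b, c, h, H⟩ := no_emb v s x y hxy (fun i => f (gP i)) (f.injective.comp gP_inj)
  refine h (fin_path a b c (H _ _ _ ?_ ?_ ?_) (H _ _ _ ?_ ?_ ?_) (H _ _ _ ?_ ?_ ?_)
    (H _ _ _ ?_ ?_ ?_)) <;> apply f.toHom.map_adj
  · exact blow_ll _ _ _ p01
  · exact blow_lr _ _ _ (Sym2.mem_mk_left _ _)
  · exact blow_lr _ _ _ (Sym2.mem_mk_right _ _)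
  · exact blow_ll _ _ _ p12
  · exact blow_lr _ _ _ (Sym2.mem_mk_left _ _)
  · exact blow_lr _ _ _ (Sym2.mem_mk_right _ _)
  · exact blow_ll _ _ _ p23
  · exact blow_lr _ _ _ (Sym2.mem_mk_left _ _)
  · exact blow_lr _ _ _ (Sym2.mem_mk_right _ _)
  · exact blow_ll _ _ _ p34
  · exact blow_lr _ _ _ (Sym2.mem_mk_left _ _)
  · exact blow_lr _ _ _ (Sym2.mem_mk_right _ _)

theorem free_cyc {V : Type} (v : V) (s : V → Bool) (x y : V) (hxy : x ≠ y) :
    (blow (cycleGraph 4)).Free (GG v s x y) := by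
  rintro ⟨f⟩
  obtain ⟨a, b, c, h, H⟩ := no_emb v s x y hxy (fun i => f (gC i)) (f.injective.comp gC_inj)
  refine h (fin_cyc a b c (H _ _ _ ?_ ?_ ?_) (H _ _ _ ?_ ?_ ?_) (H _ _ _ ?_ ?_ ?_)
    (H _ _ _ ?_ ?_ ?_)) <;> apply f.toHom.map_adj
  · exact blow_ll _ _ _ c01
  · exact blow_lr _ _ _ (Sym2.mem_mk_left _ _)
  · exact blow_lr _ _ _ (Sym2.mem_mk_right _ _)
  · exact blow_ll _ _ _ c12
  · exact blow_lr _ _ _ (Sym2.mem_mk_left _ _)
  · exact blow_lr _ _ _ (Sym2.mem_mk_right _ _)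
  · exact blow_ll _ _ _ c23
  · exact blow_lr _ _ _ (Sym2.mem_mk_left _ _)
  · exact blow_lr _ _ _ (Sym2.mem_mk_right _ _)
  · exact blow_ll _ _ _ c30
  · exact blow_lr _ _ _ (Sym2.mem_mk_left _ _)
  · exact blow_lr _ _ _ (Sym2.mem_mk_right _ _)

theorem card_par (m r : ℕ) (hr : r < 2) (z : Fin (2 * m + 1)) (hz : z.1 = 0) :
    (univ.filter fun u : Fin (2 * m + 1) => u ≠ z ∧ u.1 % 2 = r).card = m := by
  refine Eq.trans ?_ (card_range m)
  refine Finset.card_bij (fun u _ => (u.1 - 1) / 2) ?_ ?_ ?_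
  · intro u hu
    simp only [mem_filter, mem_univ, true_and, ne_eq, Fin.ext_iff] at hu
    have := u.2
    rw [mem_range]; omega
  · intro u hu w hw h
    simp only [mem_filter, mem_univ, true_and, ne_eq, Fin.ext_iff] at hu hw
    apply Fin.ext
    omega
  · intro i hi
    rw [mem_range] at hi
    refine ⟨⟨2 * i + 2 - r, by omega⟩, ?_, ?_⟩
    · simp only [mem_filter, mem_univ, true_and, ne_eq, Fin.ext_iff]
      omega
    · simp only
      omega

theorem deg_ge {V : Type} [Fintype V] [DecidableEq V] (v : V) (s : V → Bool) (x y : V) (m : ℕ)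
    (hm : 1 ≤ m) (hP : (PP v s x).card = m) (hQ : (QQ v s x).card = m) (u : V) :
    m + 1 ≤ ((GG v s x y).neighborSet u).ncard := by
  have hd : Disjoint (PP v s x) (QQ v s x) := by
    rw [Finset.disjoint_left]
    intro a h1 h2
    exact ((mem_QQ ..).1 h2).2 ((mem_PP ..).1 h1).2
  have gen : ∀ S : Finset V, m + 1 ≤ S.card → (∀ w ∈ S, (GG v s x y).Adj u w) →
      m + 1 ≤ ((GG v s x y).neighborSet u).ncard := by
    intro S h1 h2
    rw [← Set.ncard_coe_finset] at h1
    exact h1.trans (Set.ncard_le_ncard (fun w hw => h2 w hw) (Set.toFinite _))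
  by_cases hu : u = v
  · refine gen (PP v s x ∪ QQ v s x) (by rw [card_union_of_disjoint hd]; omega) ?_
    intro w hw
    have : w ≠ v := by
      rcases mem_union.1 hw with h | h
      · exact ((mem_PP ..).1 h).1
      · exact ((mem_QQ ..).1 h).1
    rw [GG_adj]
    exact ⟨hu ▸ this.symm, Or.inl hu⟩
  by_cases hs : s u = s x
  · refine gen (insert v (QQ v s x))
      (by rw [card_insert_of_notMem (fun h => ((mem_QQ ..).1 h).1 rfl)]; omega) ?_
    intro w hw
    rw [GG_adj]
    rcases mem_insert.1 hw with h | h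
    · exact ⟨h ▸ hu, Or.inr (Or.inl h)⟩
    · have h2 : s u ≠ s w := fun e => ((mem_QQ ..).1 h).2 (e.symm.trans hs)
      exact ⟨fun e => h2 (by rw [e]), Or.inr (Or.inr (Or.inl h2))⟩
  · refine gen (insert v (PP v s x))
      (by rw [card_insert_of_notMem (fun h => ((mem_PP ..).1 h).1 rfl)]; omega) ?_
    intro w hw
    rw [GG_adj]
    rcases mem_insert.1 hw with h | h
    · exact ⟨h ▸ hu, Or.inr (Or.inl h)⟩
    · have h2 : s u ≠ s w := fun e => hs (e.trans ((mem_PP ..).1 h).2)
      exact ⟨fun e => h2 (by rw [e]), Or.inr (Or.inr (Or.inl h2))⟩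

theorem deg_le {V : Type} [Fintype V] [DecidableEq V] (v : V) (s : V → Bool) (x y : V)
    (hs : s y = s x) (u : V) (hu : u ∈ QQ v s x) :
    ((GG v s x y).neighborSet u).ncard ≤ (PP v s x).card + 1 := by
  rw [mem_QQ] at hu
  refine le_trans ?_ (card_insert_le v (PP v s x))
  rw [← Set.ncard_coe_finset]
  refine Set.ncard_le_ncard (fun w hw => ?_) (Set.toFinite _)
  rw [mem_neighborSet, GG_adj] at hw
  rw [mem_coe, mem_insert, mem_PP]
  by_cases hwv : w = v
  · exact Or.inl hwv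
  right
  refine ⟨hwv, ?_⟩
  rcases hw.2 with h | h | h | h | h
  · exact absurd h hu.1
  · exact absurd h hwv
  · rcases bool_aux _ _ (s x) h with h' | h'
    · exact absurd h'.1 hu.2
    · exact h'.2
  · exact absurd (by rw [h.1]) hu.2
  · exact absurd (by rw [h.1, hs]) hu.2

theorem twin (n : ℕ) (hn : 7 ≤ n) (hodd : Odd n) (x y : Fin n) (hxy : x ≠ y)
    (hna : ¬ (Hn n 2).Adj x y) :
    ∃ G' : SimpleGraph (Fin n), (blow (cycleGraph 4)).Free G' ∧ (blow (pathGraph 5)).Free G' ∧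
      tri G' = tri (Hn n 2 ⊔ edge x y) ∧ IsEmpty (G' ≃g (Hn n 2 ⊔ edge x y)) := by
  obtain ⟨m, rfl⟩ := hodd
  have hm : 3 ≤ m := by omega
  let v : Fin (2 * m + 1) := ⟨0, by omega⟩
  let s : Fin (2 * m + 1) → Bool := fun u => decide (u.1 % 2 = 0)
  have hs' : ∀ u w, s u = s w ↔ u.1 % 2 = w.1 % 2 := by
    intro u w
    simp only [s, decide_eq_decide]
    omega
  have hH : Hn (2 * m + 1) 2 ⊔ edge x y = GG v s x y := by
    unfold Hn GG
    congr 2
    ext u w
    simp only [ne_eq, hs', v, Fin.ext_iff]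
    omega
  simp only [Hn, fromRel_adj, not_and, not_or] at hna
  obtain ⟨⟨a1, a2⟩, a3, -⟩ := hna hxy
  have hx : x ≠ v := by simp only [ne_eq, v, Fin.ext_iff]; omega
  have hy : y ≠ v := by simp only [ne_eq, v, Fin.ext_iff]; omega
  have hs : s y = s x := by rw [hs']; omega
  have hP : (PP v s x).card = m := by
    refine Eq.trans ?_ (card_par m (x.1 % 2) (by omega) v rfl)
    unfold PP
    congr 1
    ext u
    simp only [mem_filter, hs']
  have hQ : (QQ v s x).card = m := by
    refine Eq.trans ?_ (card_par m (1 - x.1 % 2) (by omega) v rfl)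
    unfold QQ
    congr 1
    ext u
    simp only [mem_filter, ne_eq, hs', mem_univ, true_and]
    constructor
    · rintro ⟨h1, h2⟩; exact ⟨h1, by omega⟩
    · rintro ⟨h1, h2⟩; exact ⟨h1, by omega⟩
  obtain ⟨z, hz, hz'⟩ : ∃ z ∈ PP v s x, z ∉ ({x, y} : Finset (Fin (2 * m + 1))) := by
    apply exists_mem_notMem_of_card_lt_card
    have := card_le_two (a := x) (b := y)
    omega
  simp only [mem_insert, mem_singleton, not_or] at hz'
  have hzP := (mem_PP ..).1 hz
  let s' : Fin (2 * m + 1) → Bool := fun u => if u = z then !(s x) else s u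
  have sx : s' x = s x := if_neg (Ne.symm hz'.1)
  have sy : s' y = s' x := by rw [sx, ← hs]; exact if_neg (Ne.symm hz'.2)
  have hP' : PP v s' x = (PP v s x).erase z := by
    ext u
    rw [mem_erase, mem_PP, mem_PP, sx]
    by_cases h : u = z
    · simp [s', h]
    · simp [s', h]
  have hQ' : QQ v s' x = insert z (QQ v s x) := by
    ext u
    rw [mem_insert, mem_QQ, mem_QQ, sx]
    by_cases h : u = z
    · simp [s', h, hzP.1]
    · simp [s', h]
  have cP : (PP v s' x).card + 1 = m := by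
    rw [hP', card_erase_add_one hz, hP]
  have cQ : (QQ v s' x).card = m + 1 := by
    rw [hQ', card_insert_of_notMem (fun h => ((mem_QQ ..).1 h).2 hzP.2), hQ]
  refine ⟨GG v s' x y, free_cyc _ _ _ _ hxy, free_path _ _ _ _ hxy, ?_, ⟨fun e => ?_⟩⟩
  · rw [hH, tri_GG v s' x y hxy hx hy sy, tri_GG v s x y hxy hx hy hs, hP, hQ, cQ]
    have e1 : ∀ a b : ℕ, a + 1 = b → a * (b + 1) + (b + 1) + 1 = b * b + b + 1 := by
      rintro a b rfl
      ring
    exact e1 _ _ cP
  · rw [hH] at e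
    have h1 := deg_le v s' x y sy z (by rw [hQ']; exact mem_insert_self _ _)
    have h2 := deg_ge v s x y m (by omega) hP hQ (e z)
    have h3 : ((GG v s' x y).neighborSet z).ncard = ((GG v s x y).neighborSet (e z)).ncard :=
      Nat.card_congr (e.mapNeighborSet z)
    omega

end Pool.Agent.H.MP_5b3c48_co
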